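import Pool.Agent.Lib.MP_8f0578_co.Bridge

namespace Pool.Agent.Results.MP_8f0578_co.SqrtBound

/-- Every invariant consistent path system in a Cayley graph of a finite group `G` is
`9 * sqrt |G|`-metric. -/
theorem result {G : Type*} [Group G] [Fintype G] (S : Set G)
    (_hS : ∀ s ∈ S, s⁻¹ ∈ S) (_hgen : Subgroup.closure S = ⊤)
    (P : ∀ u v : G, (SimpleGraph.mulCayley S).Walk u v)
    (hpath : ∀ u v, (P u v).IsPath)
    (hsymm : ∀ u v, P v u = (P u v).reverse)
    (hcons : ∀ (u a b v : G) (w₁ : (SimpleGraph.mulCayley S).Walk u a)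
      (w₂ : (SimpleGraph.mulCayley S).Walk a b) (w₃ : (SimpleGraph.mulCayley S).Walk b v),
      P u v = w₁.append (w₂.append w₃) → w₂ = P a b)
    (hinv : ∀ g x y, (P (g * x) (g * y)).support = (P x y).support.map (fun z => g * z)) :
    ∃ m : MetricSpace G, ∀ u v,
      ((P u v).darts.map fun d => m.dist d.fst d.snd).sum ≤
        9 * √(Fintype.card G) * m.dist u v :=
  Pool.Agent.Lib.MP_8f0578_co.main_walk _ P hpath hsymm hcons hinv

end Pool.Agent.Results.MP_8f0578_co.SqrtBound
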